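import Mathlib

set_option autoImplicit false
open Matrix Finset SimpleGraph

namespace Pool.Agent.Results.MP_c65526_co.Cubic

theorem climb {V : Type} [Fintype V] (q : V → ℝ) (a c : ℝ) (hc : 0 ≤ c) (w : V)
    (h : ∀ t, a ≤ t → t < q w → ∃ y, t < q y ∧ q y ≤ t + c) : q w ≤ a + Fintype.card V * c := by
  classical
  have k : ∀ k : ℕ, a + k * c < q w → k ≤ (univ.filter fun x => q x ≤ a + k * c).card := by
    intro k
    induction k with
    | zero => simp
    | succ k ih =>
      intro hk
      push_cast at hk ⊢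
      obtain ⟨y, y1, y2⟩ := h (a + k * c) (by nlinarith [(Nat.cast_nonneg k : (0 : ℝ) ≤ k)])
        (by linarith)
      refine (ih (by linarith)).trans_lt (card_lt_card ⟨fun x hx => ?_, fun hx => ?_⟩)
      · simp only [mem_filter, mem_univ, true_and] at hx ⊢; linarith
      · have := hx (mem_filter.mpr ⟨mem_univ y, by linarith⟩)
        simp only [mem_filter, mem_univ, true_and] at this; linarith
  by_contra! hw
  refine (k _ hw).not_gt (card_lt_card ⟨filter_subset _ _, fun hx => ?_⟩)
  exact (mem_filter.mp (hx (mem_univ w))).2.not_gt hw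

theorem aux {V : Type} [Fintype V] [DecidableEq V] (G H : SimpleGraph V) [DecidableRel G.Adj]
    [DecidableRel H.Adj] (d : ℕ) (hn : 3 ≤ Fintype.card V) (cn : H.Connected)
    (hd : G.IsRegularOfDegree d) (u v : V) (huv : G.Adj u v)
    (ad : ∀ a b, H.Adj a b ↔ G.Adj a b ∧ s(a, b) ≠ s(u, v)) (q : V → ℝ) (hq : ∀ x, 0 < q x) (l : ℝ)
    (he : H.adjMatrix ℝ *ᵥ q = l • q) (x y : V) (uv : q u ≤ q v) :
    q x / q y ≤ (Fintype.card V : ℝ) ^ 3 := by
  have : Nonempty V := ⟨x⟩
  have e : ∀ a, l * q a = ∑ b, if H.Adj a b then q b else 0 := fun a => by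
    simpa [neighborFinset_eq_filter, sum_filter] using (congrFun he a).symm
  have dg : ∀ a, (d : ℝ) = (∑ b, if H.Adj a b then 1 else 0) + (if a = u then 1 else 0) +
      if a = v then 1 else 0 := fun a => by
    have : ∀ b, (if G.Adj a b then (1 : ℝ) else 0) = (if H.Adj a b then 1 else 0) +
        (if b = v then if a = u then 1 else 0 else 0) +
        if b = u then if a = v then 1 else 0 else 0 := fun b => by
      have := huv.ne
      by_cases h1 : a = u <;> by_cases h2 : a = v <;> by_cases h3 : b = u <;> by_cases h4 : b = v <;>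
        simp_all [huv.symm]
    rw [← hd a, ← card_neighborFinset_eq_degree, neighborFinset_eq_filter, ← sum_boole,
      sum_congr rfl fun b _ => this b]
    simp [sum_add_distrib]
  have ld : l ≤ d := by
    obtain ⟨a, ha⟩ := Finite.exists_max q
    refine le_of_mul_le_mul_right ?_ (hq a)
    have : (∑ b, if H.Adj a b then q b else 0) ≤ (∑ b, if H.Adj a b then 1 else 0) * q a := by
      rw [sum_mul]; exact sum_le_sum fun b _ => by split_ifs <;> simp [ha]
    have := hq a
    rw [e, dg a]; split_ifs <;> linarith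
  obtain ⟨z, hz⟩ := Finite.exists_min q
  have key : ∀ w t, q z ≤ t → t < q w → ∃ y, t < q y ∧
      q y ≤ t + ((if q u ≤ t then q u else 0) + if q v ≤ t then q v else 0) := fun w t h1 h2 => by
    obtain ⟨p⟩ := cn.preconnected z w
    obtain ⟨D, -, D1, D2⟩ := p.exists_boundary_dart {x | q x ≤ t} h1 h2.not_ge
    simp only [Set.mem_ofPred_eq, not_le] at D1 D2
    refine ⟨_, D2, ?_⟩
    let S := univ.filter fun x => q x ≤ t
    have s1 : ∑ a ∈ S, ∑ b, (if H.Adj a b then q b - q a else 0) ≤
        (if q u ≤ t then q u else 0) + if q v ≤ t then q v else 0 := by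
      calc _ ≤ ∑ a ∈ S, ((if a = u then q a else 0) + if a = v then q a else 0) := by
            refine sum_le_sum fun a _ => ?_
            have : ∑ b, (if H.Adj a b then q b - q a else 0) =
                l * q a - (∑ b, if H.Adj a b then 1 else 0) * q a := by
              rw [e, sum_mul, ← sum_sub_distrib]
              exact sum_congr rfl fun b _ => by split_ifs <;> simp
            have h := mul_le_mul_of_nonneg_right ld (hq a).le
            rw [dg a] at h
            rw [this]; split_ifs at h ⊢ <;> linarith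
        _ = _ := by simp [sum_add_distrib, S]
    have s2 : ∑ a ∈ S, ∑ b ∈ S, (if H.Adj a b then q b - q a else 0) = 0 := by
      have : ∑ a ∈ S, ∑ b ∈ S, (if H.Adj a b then q b - q a else 0) =
          -∑ a ∈ S, ∑ b ∈ S, (if H.Adj a b then q b - q a else 0) := by
        conv_lhs => rw [sum_comm]
        simp only [← sum_neg_distrib]
        exact sum_congr rfl fun a _ => sum_congr rfl fun b _ => by
          simp only [H.adj_comm b]; split_ifs <;> simp
      linarith
    simp only [← sum_add_sum_compl S, sum_add_distrib, s2, zero_add] at s1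
    have nn : ∀ a ∈ S, ∀ b ∈ Sᶜ, 0 ≤ if H.Adj a b then q b - q a else 0 := fun a ha b hb => by
      simp only [S, mem_compl, mem_filter, mem_univ, true_and] at ha hb
      split_ifs <;> linarith
    have m1 : D.fst ∈ S := by simpa [S]
    have := (single_le_sum (nn _ m1) (show D.snd ∈ Sᶜ by simpa [S])).trans
      (single_le_sum (fun a ha => sum_nonneg (nn a ha)) m1)
    rw [if_pos D.adj] at this
    linarith
  have a1 := climb q (q z) 0 le_rfl u fun t h1 h2 => by
    simpa [h2.not_ge, (h2.trans_le uv).not_ge] using key u t h1 h2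
  have a2 := climb q (q z) (q u) (hq u).le v fun t h1 h2 => (key v t h1 h2).imp fun y h =>
    ⟨h.1, h.2.trans (by have := hq u; split_ifs <;> linarith)⟩
  have a3 := climb q (q z) (q u + q v) (add_pos (hq u) (hq v)).le x fun t h1 h2 =>
    (key x t h1 h2).imp fun y h =>
      ⟨h.1, h.2.trans (by have := hq u; have := hq v; split_ifs <;> linarith)⟩
  have n3 : (3 : ℝ) ≤ Fintype.card V := by exact_mod_cast hn
  generalize (Fintype.card V : ℝ) = n at *
  rw [div_le_iff₀ (hq y)]
  have z0 := hq z
  have b2 : q v ≤ (1 + n) * q z := by nlinarith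
  have b3 : q x ≤ (n + 1) ^ 2 * q z := by nlinarith
  have b4 : (n + 1) ^ 2 ≤ n ^ 3 := by nlinarith
  calc q x ≤ n ^ 3 * q z := b3.trans (mul_le_mul_of_nonneg_right b4 z0.le)
    _ ≤ _ := mul_le_mul_of_nonneg_left (hz y) (by positivity)

theorem result {V : Type} [Fintype V] [DecidableEq V] (G : SimpleGraph V) [DecidableRel G.Adj]
    (d : ℕ) (hn : 3 ≤ Fintype.card V) (hc : G.Connected) (hd : G.IsRegularOfDegree d) (u v : V)
    (huv : G.Adj u v) (hb : ¬ G.IsBridge s(u, v)) (q : V → ℝ) (hq : ∀ x, 0 < q x) (l : ℝ)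
    (he : (G.deleteEdges {s(u, v)}).adjMatrix ℝ *ᵥ q = l • q) (x y : V) :
    q x / q y ≤ (Fintype.card V : ℝ) ^ 3 := by
  have cn := hc.connected_delete_edge_of_not_isBridge hb
  rcases le_total (q u) (q v) with h | h
  · exact aux G _ d hn cn hd u v huv (by simp) q hq l he x y h
  · exact aux G _ d hn cn hd v u huv.symm (by simp; tauto) q hq l he x y h

end Pool.Agent.Results.MP_c65526_co.Cubic
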